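import Pool.Agent.J4.H76.TK.Num
import Pool.Agent.H688R3.TuranGenLimit

/-!
# `π(K_{r+1}^r) ≥ 1 - 1.919/(r+1)` for all large `r`, and the consequences for all `K_m^r`

The notions are those of `Pool.Agent.H120R2.CliqueDefs`: `ex n r m = ex(n, K_m^r)` and
`turanDensity r m = π(K_m^r)`, the limit of `ex n r m / C(n, r)`.

De Caen's bound is `π(K_{r+1}^r) ≤ 1 - 1/r`; his conjecture that `r (1 - π(K_{r+1}^r))` tends to
infinity is known to be false. The point here is that the constant gets below `2`.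

Outline.  Determinant codes (`Pool.Agent.H369R2.TD`): the vertices carry random vectors of `F_q^d`,
a `(d+1)`-set carries a linear dependency whose set of zeros has about a Poisson number `N` of
elements of mean `y`, and the cost is the mean of `c_N`, `c_j = j t(j, j-1)`; the sets without
zeros are treated by alternating two parts.  For the small systems `t(j, j-1)` the explicit ones of
`Pool.Agent.TH485.Uni` are used (`c_6 = 1.8254`, `c_7 = 1.6543`, `c_8 = 1.8906`, ...), with `y = 7`.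
The passage from `m = r + 1` to all `m` is the superadditivity of `(1 - π(K_{y+1}^r))^(-1/(r-1))`
(`Pool.Agent.H688R3.TuranGen`).
-/

set_option autoImplicit false

open Filter Topology

namespace Pool.Agent.Results.MP_a4d830_co.ConstantBelowTwo

open Pool.Agent.H120R2.Clique Pool.Agent.H688R3.TuranGen

/-- There is `r₀` such that for all `r ≥ r₀`: the limit `π(K_m^r)` of `ex(n, K_m^r) / C(n, r)` exists
and `π(K_m^r) ≥ 1 - 1.919 / ((r + 1) ⌊(m - 1)/r⌋^(r-1))` for all `m > r`; in particular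
`π(K_{r+1}^r) ≥ 1 - 1.919 / (r + 1)`; and `(m - 1)^(r-1) (1 - π(K_m^r))` converges, as `m → ∞`, to a
limit `L` with `(r - 1)! < L ≤ 1.919 r^(r-1) / (r + 1)`. -/
theorem result : ∃ r₀ : ℕ, ∀ r : ℕ, r₀ ≤ r →
    (∀ m : ℕ, r < m →
      Tendsto (fun n : ℕ => (ex n r m : ℝ) / (n.choose r : ℝ)) atTop (𝓝 (turanDensity r m)) ∧
      1 - 1.919 / (((r : ℝ) + 1) * (((m - 1) / r : ℕ) : ℝ) ^ (r - 1)) ≤ turanDensity r m) ∧
    1 - 1.919 / ((r : ℝ) + 1) ≤ turanDensity r (r + 1) ∧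
    ∃ L : ℝ, Tendsto (fun m : ℕ => ((m : ℝ) - 1) ^ (r - 1) * (1 - turanDensity r m)) atTop (𝓝 L) ∧
      ((r - 1).factorial : ℝ) < L ∧ L ≤ 1.919 * (r : ℝ) ^ (r - 1) / ((r : ℝ) + 1) := by
  have e0 : (1.919 : ℝ) = 1919 / 1000 := by norm_num
  rw [e0]
  obtain ⟨r₁, h⟩ := eventually_atTop.1 Pool.Agent.J4.H76.TK.tur_1919
  refine ⟨max r₁ 3, fun r hr => ?_⟩
  have hr1 : r₁ ≤ r := (le_max_left _ _).trans hr
  have hr3 : 3 ≤ r := (le_max_right _ _).trans hr
  have h1 := Pool.Agent.H369R2.TD.density_of_tur (h r hr1)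
  have hb : t r (r + 1) ≤ (1919 / 1000) / ((r : ℝ) + 1) := by
    unfold t
    linarith
  obtain ⟨s, rfl⟩ : ∃ s, r = s + 1 := ⟨r - 1, by omega⟩
  have e2 : s + 1 - 1 = s := by omega
  obtain ⟨L, g1, g2, g3⟩ := exists_limit (s := s) (by omega)
  rw [e2]
  refine ⟨fun m hm => ⟨ratio_tendsto _ m, ?_⟩, h1, L, g2, ?_, ?_⟩
  · have h6 := t_div (s := s) (by omega) (j := s + 1 + 1) (m := m) (by omega) (by omega)
    have e3 : s + 1 + 1 - 1 = s + 1 := by omega
    rw [e3] at h6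
    have hq : 1 ≤ (m - 1) / (s + 1) := (Nat.one_le_div_iff (by omega)).2 (by omega)
    have hq' : (0 : ℝ) < (((m - 1) / (s + 1) : ℕ) : ℝ) := by exact_mod_cast hq
    have h7 := h6.trans hb
    have hp : (0 : ℝ) < (((s + 1 : ℕ) : ℝ) + 1) := by positivity
    have h8 : t (s + 1) m ≤ (1919 / 1000) /
        ((((s + 1 : ℕ) : ℝ) + 1) * (((m - 1) / (s + 1) : ℕ) : ℝ) ^ s) := by
      rw [le_div_iff₀ (by positivity)]
      rw [le_div_iff₀ hp] at h7
      linarith
    unfold t at h8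
    linarith
  · refine lt_of_lt_of_le ?_ g1
    have hf : (0 : ℝ) < (s.factorial : ℝ) := by exact_mod_cast Nat.factorial_pos s
    have hx : (0 : ℝ) < 1 / (2 ^ (2 * (s + 1) + 26) * ((s + 1 : ℕ) : ℝ) ^ 9) := by positivity
    nlinarith
  · have h4 := g3 (s + 1 + 1) (by omega)
    have e : (((s + 1 + 1 : ℕ) : ℝ) - 1) = ((s + 1 : ℕ) : ℝ) := by push_cast; ring
    rw [e] at h4
    refine h4.trans ?_
    calc ((s + 1 : ℕ) : ℝ) ^ s * t (s + 1) (s + 1 + 1)
        ≤ ((s + 1 : ℕ) : ℝ) ^ s * ((1919 / 1000) / (((s + 1 : ℕ) : ℝ) + 1)) :=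
          mul_le_mul_of_nonneg_left hb (by positivity)
      _ = _ := by ring

end Pool.Agent.Results.MP_a4d830_co.ConstantBelowTwo
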