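import Pool.Agent.J4.H84.TU.Main
import Pool.Agent.J4.H84.TU.Lin

/-!
# An absolute constant factor over de Caen's bound, for all uniformities

The notions are those of `Pool.Agent.H120R2.CliqueDefs`: `ex n r m = ex(n, K_m^r)` and
`turanDensity r m = π(K_m^r)`.

De Caen's theorem is
`C(n, r) - ex(n, K_m^r) ≥ (n - m + 1)/(n - r + 1) * C(n, r)/C(m - 1, r - 1)`, that is
`π(K_m^r) ≤ 1 - 1/C(m - 1, r - 1)`.  Here the density bound is improved by the factor `1 + 10^(-48)`,
which depends neither on `r` nor on `m`, for all `r ≥ 3` and `m ≥ 3r`, and the finite bound for all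
`r ≥ 3` and `m ≥ 3·10^9 r`.

Outline, for `m ≥ 3·10^9 r`.  Let `T` be the family of the `r`-sets which are not edges, `j` the size of
its largest independent sets, `b_i` the mean number of vertices blocked by an independent `i`-set and
`B_i = b_i / C(i, r - 1)`.  Then `B_(r-1) = r |T| / C(n, r - 1)`, `B_j = (n - j)/C(j, r - 1)`, and
`B_i - B_(i+1)` is a sum of two nonnegative terms: a defect (the blocked vertices whose blocking edges
have not all their other vertices in common) and a variance.  If de Caen's bound were sharp up to the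
factor `1 + 10^(-48)`, there would be a level `J` with `b_J` about `n/2` at which both terms are tiny.
Take a uniform independent `J`-set and expose its elements in random order.  The total entropy defect
of this exchangeable sequence is at most the change of the sequence `B` times `J/r`, so at most levels
`p` near `J` the next element is almost uniform on the free vertices, and then (comparing the levels
`p` and `p + k`) almost every free vertex is blocked by the same number of free vertices.  Hence
almost all elements `a` of almost all independent `J`-sets `A` have the same number of critical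
vertices, and almost none of these are lost when a small proportion of `A` is deleted; a second moment
argument then shows that the blocking edges of two critical vertices of `a` have few common elements.
On the other hand, in a star (an independent `(J-2)`-set `C` with three vertices, any two but not all
three of which can be added) the critical vertices of the three pairs overlap in a fixed proportion, a
contradiction.

For `2r - 1 ≤ m ≤ 3·10^9 r` the gain is that of the starting library, `Pool.Agent.Y437.FC`, which is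
bounded below in terms of `m/r` but tends to `0` as `m/r → ∞`.
-/

open Filter Topology

namespace Pool.Agent.Results.MP_a4d830_co.ConstantFactor

open Pool.Agent.H120R2.Clique

/-- For every `r ≥ 3`, all the limits `π(K_m^r)` exist and:
(1) `π(K_m^r) ≤ 1 - (1 + 10^(-48))/C(m-1, r-1)` for all `m ≥ 3r`;
(2) `π(K_m^r) ≤ 1 - (1 + 10^(-48) (m-2r+2)/(m-r))/C(m-1, r-1)` for all `m ≥ 2r-1`;
(3) `ex(n, K_m^r) ≤ C(n,r) - (1 + 10^(-48)) (n-m+1)/(n-r+1) C(n,r)/C(m-1,r-1)` for all `m ≥ 3·10^9 r`
and `n ≥ 10^11 m`;
(4) `(m-1)^(r-1) (1 - π(K_m^r))` converges as `m → ∞`, its limit is at least `(1 + 10^(-48)) (r-1)!`,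
and `π(K_m^r) ≤ 1 - (1 + 10^(-48)) (r-1)!/(m-1)^(r-1)` for every `m ≥ r`. -/
theorem result (r : ℕ) (hr : 3 ≤ r) :
    (∀ m : ℕ, Tendsto (fun n : ℕ => (ex n r m : ℝ) / (n.choose r : ℝ)) atTop
      (𝓝 (turanDensity r m))) ∧
    (∀ m : ℕ, 3 * r ≤ m →
      turanDensity r m ≤ 1 - (1 + 1 / 10 ^ 48) / ((m - 1).choose (r - 1) : ℝ)) ∧
    (∀ m : ℕ, 2 * r - 1 ≤ m →
      turanDensity r m ≤ 1 - (1 + 1 / 10 ^ 48 * (((m : ℝ) - 2 * r + 2) / ((m : ℝ) - r))) /
        ((m - 1).choose (r - 1) : ℝ)) ∧
    (∀ m n : ℕ, 3 * 10 ^ 9 * r ≤ m → 10 ^ 11 * m ≤ n →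
      (ex n r m : ℝ) ≤ (n.choose r : ℝ) - (1 + 1 / 10 ^ 48) *
        (((n : ℝ) - m + 1) / ((n : ℝ) - r + 1)) * ((n.choose r : ℝ) / ((m - 1).choose (r - 1) : ℝ))) ∧
    ∃ L : ℝ, Tendsto (fun m : ℕ => ((m : ℝ) - 1) ^ (r - 1) * (1 - turanDensity r m)) atTop (𝓝 L) ∧
      (1 + 1 / 10 ^ 48) * ((r - 1).factorial : ℝ) ≤ L ∧
      ∀ m : ℕ, r ≤ m → turanDensity r m ≤
        1 - (1 + 1 / 10 ^ 48) * ((r - 1).factorial : ℝ) / ((m : ℝ) - 1) ^ (r - 1) := by
  refine ⟨fun m => ratio_tendsto r m, fun m hm => Pool.Agent.J4.H84.TU.density_three hr hm,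
    fun m hm => Pool.Agent.J4.H84.TU.density_all hr (by omega), fun m n hm hn => ?_,
    Pool.Agent.J4.H84.TU.limit_bound hr⟩
  have h := Pool.Agent.J4.H84.TU.finite_turan hr hm hn
  have hC : (0 : ℝ) < ((m - 1).choose (r - 1) : ℝ) := by
    exact_mod_cast Nat.choose_pos (show r - 1 ≤ m - 1 by omega)
  have hx : (0 : ℝ) < (n : ℝ) - r + 1 := by
    have : (r : ℝ) ≤ n := by exact_mod_cast (show r ≤ n by omega)
    linarith
  have e : (1 + 1 / 10 ^ 48) * (((n : ℝ) - m + 1) / ((n : ℝ) - r + 1)) *
      ((n.choose r : ℝ) / ((m - 1).choose (r - 1) : ℝ)) =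
      ((1 + 1 / 10 ^ 48) * ((n : ℝ) - m + 1) * (n.choose r : ℝ)) /
        (((n : ℝ) - r + 1) * ((m - 1).choose (r - 1) : ℝ)) := by
    field_simp
  have h2 : ((1 + 1 / 10 ^ 48) * ((n : ℝ) - m + 1) * (n.choose r : ℝ)) /
        (((n : ℝ) - r + 1) * ((m - 1).choose (r - 1) : ℝ)) ≤ (n.choose r : ℝ) - (ex n r m : ℝ) := by
    rw [div_le_iff₀ (by positivity)]
    linarith
  rw [e]
  linarith

end Pool.Agent.Results.MP_a4d830_co.ConstantFactor
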