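import Pool.Agent.J4.H41.GL.Rate2

/-!
# For every fixed gap `a` the normalised Turán densities `C(r+a, a) (1 - π(K_{r+a}^r))` converge

The notions are those of `Pool.Agent.H120R2.CliqueDefs`: `ex n r m = ex(n, K_m^r)` and
`turanDensity r m = π(K_m^r)`, the limit of `ex n r m / C(n, r)`.

The trivial lower bound is `C(r+a, a) (1 - π(K_{r+a}^r)) ≥ 1`, and for every fixed `a` these numbers
are bounded.  We show that they converge as `r → ∞`, and that every single value bounds the limit, up
to a factor `1 + O(√(log r / r))`: the normalised density is never much smaller than its limit.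
(For the single gap `a = 1`, helper file `J4/H63/TL` has a second proof, with a formula for the limit.)

Outline (`Pool.Agent.J4.H41.GL`).  Let `t(k) = 1 - π(K_{k+a}^k)` and `B(k) = C(k+a, a) t(k)`.
* `t(k+1) ≤ t(k)`, so `B` grows slowly: `B(m) ≤ ((m+1)/(j+1))^a B(j)` for `m ≥ j`.
* Determinant codes for the gap `a`.  Give every vertex a random vector of `F_q^(r+a-1)`.  An
  `(r+a)`-set `S` of vertices carries a linear dependency `α`.  If `α` has `m + a` zeros in `S`, a
  randomly permuted Turán system for `m` has a block `W` in this set of zeros, and the union of `W`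
  and the support of `α` is chosen.  No condition on the rank is needed: `S` contains a chosen set as
  soon as some dependency has at least `a` zeros.  With `X` binomial with parameters `r + a`, `1/q`
  the normalised density of chosen sets is `q/(q-1) E B(X - a)` and the probability of failure at
  most `q/(q-1) P(X < a)`.
* The `(r+a)`-sets without chosen subset are treated by splitting a set into its lowest `r₁ + a` and
  its highest `r₂ + a` points; a failure of the low part is seen by every set that contains it.
* Take one value `B(j)` and let `X` have mean `y > j + a`.  By the slow growth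
  `E B(X - a) ≤ (y/(j+1))^a B(j) + M P(X < j + a)` with `M = sup B`, and `P(X < j + a)` is at most
  `exp(-(y-j-a)²/(2y))`.  So `lim B ≤ (h/(h-1))^a (M P + (y/(j+1))^a B(j)) + h^a M P` for every
  integer `h ≥ 2`, with this `P`; choose `y = (j+1) (1 + A √(log(j+1)/(j+1)))` and `h` about `√j`.
-/

set_option autoImplicit false

open Filter Topology

namespace Pool.Agent.Results.MP_a4d830_co.GapLimits

open Pool.Agent.H120R2.Clique

/-- For every `a ≥ 1` the sequence `C(r+a, a) (1 - π(K_{r+a}^r))` converges as `r → ∞`; its limit `L`
is at least `1` and, up to the factor `1 + C √(log(r+1)/(r+1))`, at most the value of the sequence at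
every `r ≥ 3`. -/
theorem result (a : ℕ) (ha : 1 ≤ a) : ∃ L : ℝ, 1 ≤ L ∧
    Tendsto (fun r : ℕ => ((r + a).choose a : ℝ) * (1 - turanDensity r (r + a))) atTop (𝓝 L) ∧
    ∃ C : ℝ, ∀ r : ℕ, 3 ≤ r →
      L ≤ (1 + C * √(Real.log ((r : ℝ) + 1) / ((r : ℝ) + 1))) *
        (((r + a).choose a : ℝ) * (1 - turanDensity r (r + a))) := by
  obtain ⟨L, hL⟩ := Pool.Agent.J4.H41.GL.B_tendsto ha
  refine ⟨L, ?_, hL, Pool.Agent.J4.H41.GL.single ha hL⟩
  refine ge_of_tendsto hL ?_
  filter_upwards [eventually_ge_atTop 3] with r hr
  exact Pool.Agent.J4.H41.GL.one_le_B ha hr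

end Pool.Agent.Results.MP_a4d830_co.GapLimits
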