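import Pool.Agent.J4.H72.TD.Exact

/-!
# Turán's conjecture for one order implies it for all smaller orders, up to one

`ex n 3 m = ex(n, K_m^3)` and `turanDensity 3 m = π(K_m^3)` (see `Pool.Agent.H120R2.CliqueDefs`).
Turán's conjecture for the order `m` says `π(K_m^3) = 1 - (2/(m-1))²`. We relate the orders.

* If the conjecture holds for one `m`, then it holds for all `m' ≤ m - 2`. In particular its truth
  for a single `m ≥ 6` gives `π(K_4^3) = 5/9`.
* It holds for all `m` if it holds for infinitely many `m`, and if it holds asymptotically,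
  `(m-1)² (1 - π(K_m^3)) → 4`.
* If it fails for one `m`, then it fails for all `m' ≥ m + 2`, and by a constant factor: there is
  `κ < 4` with `(m'-1)² (1 - π(K_{m'}^3)) ≤ κ` for all `m' ≥ m + 2`.
* The exact Turán numbers: if for one odd `m = 2 l + 1` the triples inside the parts of a balanced
  partition into `l` parts give the largest `K_m^3`-free 3-graphs, for all `n`, then this is true for
  all smaller odd orders, for all `n`.
* All uniformities: if the infimum of `(m-1)^(r-1) (1 - π(K_m^r))` is attained for `m`, then the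
  one value `π(K_m^r)` determines `π(K_{j(m-1)+1}^r)` for all `j`.

Outline. `s(m) = (1 - π(K_m^3))^(-1/2)` satisfies `s(a + b - 1) ≥ s(a) + s(b)` (direct sums), and
`s(m) ≥ (m-1)/2` with equality for `m = 3`. So the excess `s(m) - (m-1)/2` is nonnegative and
superadditive.
-/

set_option autoImplicit false

open Finset Filter Topology

namespace Pool.Agent.Results.MP_a4d830_co.OneOrderSuffices

open Pool.Agent.H120R2.Clique Pool.Agent.H688R3.TuranGen Pool.Agent.J4.H72.TD

/-- Turán's conjecture for the density of `K_m^3` -/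
def Turan (m : ℕ) : Prop := turanDensity 3 m = 1 - (2 / ((m : ℝ) - 1)) ^ 2

/-- The number of triples inside the parts of a partition of `n` vertices into `l` parts of sizes
`⌊n/l⌋` and `⌊n/l⌋ + 1`. -/
def inside (l n : ℕ) : ℕ := (n % l) * (n / l + 1).choose 3 + (l - n % l) * (n / l).choose 3

/-- The excess `(1 - π(K_m^3))^(-1/2) - (m-1)/2` of the order `m`; it is `0` if and only if the
conjecture holds for `m`. -/
noncomputable def excess (m : ℕ) : ℝ := 1 / √(1 - turanDensity 3 m) - ((m : ℝ) - 1) / 2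

theorem turan_iff' {m : ℕ} (hm : 3 ≤ m) : Turan m ↔ s (m - 1) = ((m - 1 : ℕ) : ℝ) / 2 := by
  have h := turan_iff (x := m - 1) (by omega)
  have e : m - 1 + 1 = m := by omega
  rw [e] at h
  rw [← h]
  unfold Turan
  have e2 : ((m - 1 : ℕ) : ℝ) = (m : ℝ) - 1 := by rw [Nat.cast_sub (by omega)]; simp
  rw [e2]

theorem excess_eq {m : ℕ} (hm : 3 ≤ m) : excess m = s (m - 1) - ((m - 1 : ℕ) : ℝ) / 2 := by
  have e2 : ((m - 1 : ℕ) : ℝ) = (m : ℝ) - 1 := by rw [Nat.cast_sub (by omega)]; simp
  have h := S_pow (s := 2) le_rfl (x := m - 1) (by omega)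
  have hp := S_pos (s := 2) le_rfl (x := m - 1) (by omega)
  have e : m - 1 + 1 = m := by omega
  rw [e] at h
  have ht : t (2 + 1) m = 1 - turanDensity 3 m := rfl
  rw [ht] at h
  have h1 : 1 - turanDensity 3 m = (1 / S 2 (m - 1)) ^ 2 := by
    field_simp
    linarith
  unfold excess
  rw [e2, h1, Real.sqrt_sq (by positivity), one_div_one_div]

theorem fail_const {m : ℕ} (hm : 4 ≤ m) (h : ¬ Turan m) : ∃ κ : ℝ, κ < 4 ∧
    ∀ m' : ℕ, m + 2 ≤ m' → ((m' : ℝ) - 1) ^ 2 * (1 - turanDensity 3 m') ≤ κ := by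
  rw [turan_iff' (by omega)] at h
  have hge := half_le_s (m - 1) (by omega)
  have hgt : ((m - 1 : ℕ) : ℝ) / 2 < s (m - 1) := lt_of_le_of_ne hge (Ne.symm h)
  have hx0 : (0 : ℝ) < ((m - 1 : ℕ) : ℝ) := by exact_mod_cast (show 0 < m - 1 by omega)
  set ε : ℝ := 2 * (s (m - 1) - ((m - 1 : ℕ) : ℝ) / 2) / (3 * ((m - 1 : ℕ) : ℝ)) with hε
  have hε0 : 0 < ε := by
    rw [hε]
    have : 0 < s (m - 1) - ((m - 1 : ℕ) : ℝ) / 2 := by linarith
    positivity
  refine ⟨4 / (1 + ε) ^ 2, ?_, fun m' hm' => ?_⟩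
  · rw [div_lt_iff₀ (by positivity)]
    nlinarith
  · have h1 := fail_all (x := m - 1) (by omega) (y := m' - 1) (by omega)
    rw [← hε] at h1
    have h2 := S_pow (s := 2) le_rfl (x := m' - 1) (by omega)
    have hp := S_pos (s := 2) le_rfl (x := m' - 1) (by omega)
    have e : m' - 1 + 1 = m' := by omega
    rw [e] at h2
    have e2 : ((m' - 1 : ℕ) : ℝ) = (m' : ℝ) - 1 := by rw [Nat.cast_sub (by omega)]; simp
    rw [e2] at h1
    have h3 : s (m' - 1) = S 2 (m' - 1) := rfl
    rw [h3] at h1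
    have hm1 : (0 : ℝ) < (m' : ℝ) - 1 := by
      have : (1 : ℝ) < m' := by exact_mod_cast (show 1 < m' by omega)
      linarith
    have ht : t (2 + 1) m' = 1 - turanDensity 3 m' := rfl
    rw [ht] at h2
    have ht0 : 0 < 1 - turanDensity 3 m' := by
      rw [← ht]; exact t_pos (by norm_num) (by omega)
    rw [le_div_iff₀ (by positivity)]
    have h4 : (((m' : ℝ) - 1) / 2 * (1 + ε)) ^ 2 ≤ S 2 (m' - 1) ^ 2 :=
      pow_le_pow_left₀ (by positivity) h1 2
    have h5 := mul_le_mul_of_nonneg_right h4 ht0.le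
    rw [h2] at h5
    calc ((m' : ℝ) - 1) ^ 2 * (1 - turanDensity 3 m') * (1 + ε) ^ 2 =
        4 * ((((m' : ℝ) - 1) / 2 * (1 + ε)) ^ 2 * (1 - turanDensity 3 m')) := by ring
      _ ≤ 4 := by linarith

theorem result :
    -- (1) one order gives the smaller ones, up to one
    (∀ m m' : ℕ, 4 ≤ m' → m' + 2 ≤ m → Turan m → Turan m') ∧
    -- (2) all orders, infinitely many orders, and the asymptotic form
    List.TFAE [∀ m : ℕ, 4 ≤ m → Turan m, ∀ N : ℕ, ∃ m ≥ N, Turan m,
      Tendsto (fun m : ℕ => ((m : ℝ) - 1) ^ 2 * (1 - turanDensity 3 m)) atTop (𝓝 4)] ∧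
    -- (3) failure for one order is failure by a constant factor for all larger ones, up to one
    (∀ m : ℕ, 4 ≤ m → ¬ Turan m → ∃ κ : ℝ, κ < 4 ∧
      ∀ m' : ℕ, m + 2 ≤ m' → ((m' : ℝ) - 1) ^ 2 * (1 - turanDensity 3 m') ≤ κ) ∧
    -- (4) the excess is nonnegative, zero exactly when the conjecture holds, and superadditive
    (excess 3 = 0 ∧ (∀ m : ℕ, 3 ≤ m → 0 ≤ excess m ∧ (excess m = 0 ↔ Turan m)) ∧
      ∀ a b : ℕ, 3 ≤ a → 3 ≤ b → excess a + excess b ≤ excess (a + b - 1)) ∧
    -- (5) exact Turán numbers of odd order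
    (∀ l l' : ℕ, 1 ≤ l' → l' ≤ l →
      (∀ n : ℕ, ex n 3 (2 * l + 1) + inside l n = n.choose 3) →
      ∀ n : ℕ, ex n 3 (2 * l' + 1) + inside l' n = n.choose 3) ∧
    -- (6) all uniformities: an attained infimum propagates
    ∀ r m : ℕ, 3 ≤ r → r ≤ m →
      (∀ m' : ℕ, m ≤ m' → ((m : ℝ) - 1) ^ (r - 1) * (1 - turanDensity r m) ≤
        ((m' : ℝ) - 1) ^ (r - 1) * (1 - turanDensity r m')) →
      ∀ j : ℕ, 1 ≤ j →
        turanDensity r (j * (m - 1) + 1) = 1 - (1 - turanDensity r m) / (j : ℝ) ^ (r - 1) := by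
  have h1 : ∀ m m' : ℕ, 4 ≤ m' → m' + 2 ≤ m → Turan m → Turan m' := by
    intro m m' hm' hm h
    rw [turan_iff' (by omega)] at h ⊢
    exact descend (by omega) (by omega) h
  refine ⟨h1, ?_, fun m hm h => fail_const hm h, ⟨?_, fun m hm => ⟨?_, ?_⟩, ?_⟩,
    fun l l' hl hll h n => exact_down hl hll h n, ?_⟩
  · tfae_have 1 → 3 := by
      intro h
      refine tendsto_const_nhds.congr' ?_
      filter_upwards [eventually_ge_atTop 4] with m hm
      have h2 := h m hm
      unfold Turan at h2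
      have hm1 : (0 : ℝ) < (m : ℝ) - 1 := by
        have : (1 : ℝ) < m := by exact_mod_cast (show 1 < m by omega)
        linarith
      rw [h2, sub_sub_cancel]
      field_simp
      norm_num
    tfae_have 3 → 1 := by
      intro h m hm
      by_contra hcon
      obtain ⟨κ, hκ, hall⟩ := fail_const hm hcon
      have : (4 : ℝ) ≤ κ := by
        refine le_of_tendsto h ?_
        filter_upwards [eventually_ge_atTop (m + 2)] with m' hm'
        exact hall m' hm'
      linarith
    tfae_have 1 → 2 := fun h N => ⟨max N 4, le_max_left _ _, h _ (le_max_right _ _)⟩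
    tfae_have 2 → 1 := by
      intro h m hm
      obtain ⟨m', hm', h2⟩ := h (m + 2)
      exact h1 m' m hm hm' h2
    tfae_finish
  · rw [excess_eq le_rfl]
    show s 2 - ((2 : ℕ) : ℝ) / 2 = 0
    rw [s_two]; norm_num
  · rw [excess_eq hm]
    have := half_le_s (m - 1) (by omega)
    linarith
  · rw [excess_eq hm, turan_iff' hm, sub_eq_zero]
  · intro a b ha hb
    rw [excess_eq ha, excess_eq hb, excess_eq (by omega)]
    have h2 := S_add (s := 2) le_rfl (x := a - 1) (y := b - 1) (by omega) (by omega)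
    have e : a - 1 + (b - 1) = a + b - 1 - 1 := by omega
    rw [e] at h2
    have e3 : ((a + b - 1 - 1 : ℕ) : ℝ) = ((a - 1 : ℕ) : ℝ) + ((b - 1 : ℕ) : ℝ) := by
      rw [← Nat.cast_add, e]
    rw [e3]
    have h3 : s (a - 1) = S 2 (a - 1) := rfl
    have h4 : s (b - 1) = S 2 (b - 1) := rfl
    have h5 : s (a + b - 1 - 1) = S 2 (a + b - 1 - 1) := rfl
    rw [h3, h4, h5]
    linarith
  · intro r m hr hm h j hj
    have := attained hr hm h j hj
    linarith

end Pool.Agent.Results.MP_a4d830_co.OneOrderSuffices
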